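import Mathlib
import Pool.Agent.Q151.XI.Poset

/-!
# All gaps between the mapping index and the cross-index are realised

The definitions (`GComplex`, its geometric realization, `E G k`, `ind`, `GPoset`, `Q G n`, `Xind`
and the order complex) are in `Pool.Agent.Q151.XI.Defs`.
-/

set_option autoImplicit false

namespace Pool.Agent.Results.MP_28f43d_co.AllGaps

open Q151.XI

/-- For every nontrivial finite group `G` and all positive integers `m < n` there is a finite free
`G`-poset `P` whose order complex has mapping index `m` and whose cross-index is `n`. -/
theorem result (G : Type) [Group G] [Fintype G] [Nontrivial G] (m n : ℕ) (hm : 0 < m)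
    (hmn : m < n) :
    ∃ P : GPoset G, P.IsFree ∧ ind G P.orderComplex.Realization = m ∧ Xind P = n := by
  obtain ⟨P, h1, h2, h3, -⟩ := exists_poset G Fintype.one_lt_card m n hm hmn
  exact ⟨P, h1, h2, h3⟩

end Pool.Agent.Results.MP_28f43d_co.AllGaps
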